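import Pool.Agent.R745.CDN.Defs

namespace R745CD
open Finset H825CD

theorem REN_er_inj {ι : Type} [Fintype ι] [DecidableEq ι] {Q : ℕ} {j : ι}
    {t t' : ι → Fin (Q + 1)} (h : er j t = er j t') (hj : t j = t' j) : t = t' := by
  funext s
  by_cases hs : s = j
  · rw [hs]; exact hj
  · have h1 := congrFun h s
    simpa [er, hs] using h1

theorem REN_er_other {ι : Type} [Fintype ι] [DecidableEq ι] {Q : ℕ} {i j : ι} (hij : i ≠ j)
    (t : ι → Fin (Q + 1)) : er j t i = t i := by
  simp [er, hij]

theorem REN_er_comm {ι : Type} [Fintype ι] [DecidableEq ι] {Q : ℕ} {i j : ι} (hij : i ≠ j)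
    (t : ι → Fin (Q + 1)) : er i (er j t) = er j (er i t) := by
  unfold er
  exact Function.update_comm hij.symm _ _ _

theorem tN_rel (h : S_dist) : N_rel := by
  intro ι _ _ Q δ A B hd j i hij x y _
  refine ⟨?_, ?_⟩
  · have hsub : A ⊆ (A.filter (fun a => a j = x ∧ a i = y)) ∪ (A.filter (fun a => a j ≠ x)) ∪
        (A.filter (fun a => a j = x ∧ a i ≠ y)) := by
      intro a ha
      by_cases h1 : a j = x
      · by_cases h2 : a i = y
        · exact mem_union_left _ (mem_union_left _ (mem_filter.2 ⟨ha, h1, h2⟩))
        · exact mem_union_right _ (mem_filter.2 ⟨ha, h1, h2⟩)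
      · exact mem_union_left _ (mem_union_right _ (mem_filter.2 ⟨ha, h1⟩))
    have h2 : (A.filter (fun a => a j = x ∧ a i ≠ y)).card ≤
        max 1 (pur A B i).card * z01 A j i x y := by
      unfold z01
      refine card_le_mul_card_image _ _ fun u _ => ?_
      set T := (A.filter (fun a => a j = x ∧ a i ≠ y)).filter
        (fun a => er i (er j a) = u) with hT
      rcases le_or_gt T.card 1 with h4 | h4
      · exact h4.trans (le_max_left _ _)
      · refine le_trans ?_ (le_max_right _ _)
        have hinj : ∀ a ∈ T, ∀ a' ∈ T, er i a = er i a' := by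
          intro a ha a' ha'
          have ha0 := mem_filter.1 ha
          have ha0' := mem_filter.1 ha'
          have e : er j (er i a) = er j (er i a') := by
            rw [← REN_er_comm hij, ← REN_er_comm hij, ha0.2, ha0'.2]
          refine REN_er_inj e ?_
          rw [REN_er_other hij.symm, REN_er_other hij.symm, (mem_filter.1 ha0.1).2.1,
            (mem_filter.1 ha0'.1).2.1]
        refine card_le_card_of_injOn (fun a => a i) ?_ ?_
        · intro a ha
          obtain ⟨a', ha', haa'⟩ := exists_mem_ne h4 a
          have haT : a ∈ T := mem_coe.1 ha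
          have haA : a ∈ A := (mem_filter.1 (mem_filter.1 haT).1).1
          have haA' : a' ∈ A := (mem_filter.1 (mem_filter.1 ha').1).1
          have he := hinj a haT a' ha'
          have hne : a i ≠ a' i := fun h5 => haa' (REN_er_inj he h5).symm
          show a i ∈ (pur A B i : Set (Fin (Q + 1)))
          rw [mem_coe, pur, mem_sdiff]
          refine ⟨mem_image_of_mem _ haA, fun h5 => ?_⟩
          obtain ⟨b, hb, hbi⟩ := mem_image.1 h5
          have hbi' : b i = a i := hbi
          have e1 := (h ι Q i a b).2 hbi'.symm
          have e2 := (h ι Q i a' b).1 (by rw [hbi']; exact hne.symm)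
          have e4 := hd a haA b hb
          have e5 := hd a' haA' b hb
          rw [he] at e1
          omega
        · intro a ha a' ha' hi
          exact REN_er_inj (hinj a (mem_coe.1 ha) a' (mem_coe.1 ha')) hi
    calc A.card ≤ _ := card_le_card hsub
      _ ≤ _ := card_union_le _ _
      _ ≤ (A.filter (fun a => a j = x ∧ a i = y)).card + (A.filter (fun a => a j ≠ x)).card +
          (A.filter (fun a => a j = x ∧ a i ≠ y)).card :=
        Nat.add_le_add_right (card_union_le _ _) _
      _ ≤ _ := Nat.add_le_add_left h2 _
  · unfold z01 nz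
    have h3 : (A.filter (fun a => a j = x ∧ a i ≠ y)).image (fun a => er i (er j a)) =
        ((A.filter (fun a => a j = x ∧ a i ≠ y)).image (er i)).image (er j) := by
      rw [image_image]
      exact image_congr fun a _ => REN_er_comm hij a
    rw [h3]
    refine card_image_le.trans (card_le_card (image_subset_image ?_))
    intro a ha
    obtain ⟨h1, h2⟩ := mem_filter.1 ha
    exact mem_filter.2 ⟨h1, h2.2⟩

end R745CD
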